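import Mathlib
import Pool.Agent.L7h48.SGP.Stm

/-!
# Project SGP (MP_b4b3cb_nt): the sum over an arithmetic progression of `y`
-/

set_option autoImplicit false

namespace Pool.Agent.L7h53.SGP

open Set Pool.Agent.L7h48.SGP
open scoped Real

/-- the normalized primitive -/
noncomputable def gP (p y : ℝ) : ℝ := -√(1 - (p * y) ^ 2) / y - p * Real.arcsin (p * y)

/-- the normalized function -/
noncomputable def hh (p q y : ℝ) : ℝ := (√(1 - (p * y) ^ 2) - √(1 - (q * y) ^ 2)) / y ^ 2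

lemma gP_deriv {p y : ℝ} (hp : 0 < p) (hy : 0 < y) (h : p * y < 1) :
    HasDerivAt (gP p) (√(1 - (p * y) ^ 2) / y ^ 2) y := by
  have hpy : 0 < p * y := mul_pos hp hy
  have h1 : 0 < 1 - (p * y) ^ 2 := by nlinarith
  have hs : 0 < √(1 - (p * y) ^ 2) := Real.sqrt_pos.2 h1
  have hs2 : √(1 - (p * y) ^ 2) ^ 2 = 1 - (p * y) ^ 2 := Real.sq_sqrt h1.le
  have d1 : HasDerivAt (fun y => p * y) p y := by
    simpa using (hasDerivAt_id y).const_mul p
  have d2 : HasDerivAt (fun y => 1 - (p * y) ^ 2) (-(2 * (p * y) * p)) y := by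
    have := (d1.pow 2).const_sub 1
    simpa using this
  have d3 : HasDerivAt (fun y => -√(1 - (p * y) ^ 2))
      (-(-(2 * (p * y) * p) / (2 * √(1 - (p * y) ^ 2)))) y := (d2.sqrt h1.ne').neg
  have d4 : HasDerivAt (fun y => -√(1 - (p * y) ^ 2) / y)
      ((-(-(2 * (p * y) * p) / (2 * √(1 - (p * y) ^ 2))) * y - -√(1 - (p * y) ^ 2) * 1) / y ^ 2) y :=
    d3.div (hasDerivAt_id y) hy.ne'
  have d5 : HasDerivAt (fun y => p * Real.arcsin (p * y))
      (p * (1 / √(1 - (p * y) ^ 2) * p)) y :=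
    ((Real.hasDerivAt_arcsin (x := p * y) (by linarith) (by linarith)).comp y d1).const_mul p
  have d6 := d4.sub d5
  refine d6.congr_deriv ?_
  set S := √(1 - (p * y) ^ 2) with hS
  field_simp
  ring

lemma gP_cont (p : ℝ) : ContinuousOn (gP p) (Ioi 0) := by
  unfold gP
  apply ContinuousOn.sub
  · apply ContinuousOn.div
    · fun_prop
    · fun_prop
    · intro y hy
      exact (Set.mem_Ioi.1 hy).ne'
  · apply Continuous.continuousOn
    exact continuous_const.mul (Real.continuous_arcsin.comp (by fun_prop))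

lemma gP_big {p y : ℝ} (h : 1 ≤ p * y) : gP p y = -(p * (π / 2)) := by
  unfold gP
  have h1 : 1 - (p * y) ^ 2 ≤ 0 := by nlinarith
  rw [Real.sqrt_eq_zero_of_nonpos h1, Real.arcsin_of_one_le h]
  simp

lemma hh_mul {p q y : ℝ} (hp : 0 < p) (hpq : p ≤ q) (hy : 0 < y) (h : q * y ≤ 1) :
    hh p q y * (√(1 - (p * y) ^ 2) + √(1 - (q * y) ^ 2)) = q ^ 2 - p ^ 2 := by
  unfold hh
  have hpy : p * y ≤ q * y := mul_le_mul_of_nonneg_right hpq hy.le
  have hpy0 : 0 < p * y := mul_pos hp hy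
  have h1 : 0 ≤ 1 - (p * y) ^ 2 := by nlinarith
  have h2 : 0 ≤ 1 - (q * y) ^ 2 := by nlinarith
  have e1 := Real.sq_sqrt h1
  have e2 := Real.sq_sqrt h2
  rw [div_mul_eq_mul_div, div_eq_iff (by positivity)]
  linear_combination e1 - e2

lemma hh_nonneg {p q y : ℝ} (hp : 0 < p) (hpq : p ≤ q) (hy : 0 < y) : 0 ≤ hh p q y := by
  unfold hh
  apply div_nonneg _ (by positivity)
  rw [sub_nonneg]
  apply Real.sqrt_le_sqrt
  have hpy : p * y ≤ q * y := mul_le_mul_of_nonneg_right hpq hy.le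
  have hpy0 : 0 < p * y := mul_pos hp hy
  nlinarith

/-- `h` increases for `q y ≤ 1` -/
lemma hh_mono {p q u y : ℝ} (hp : 0 < p) (hpq : p ≤ q) (hu : 0 < u) (huy : u ≤ y)
    (h : q * y < 1) : hh p q u ≤ hh p q y := by
  have hy : 0 < y := hu.trans_le huy
  have hq : 0 < q := hp.trans_le hpq
  have hqu : q * u ≤ q * y := mul_le_mul_of_nonneg_left huy hq.le
  have hpu : p * u ≤ p * y := mul_le_mul_of_nonneg_left huy hp.le
  have hpu0 : 0 < p * u := mul_pos hp hu
  have hqu0 : 0 < q * u := mul_pos hq hu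
  have e1 := hh_mul hp hpq hu (by linarith)
  have e2 := hh_mul hp hpq hy h.le
  have s1 : √(1 - (p * y) ^ 2) ≤ √(1 - (p * u) ^ 2) := Real.sqrt_le_sqrt (by nlinarith)
  have s2 : √(1 - (q * y) ^ 2) ≤ √(1 - (q * u) ^ 2) := Real.sqrt_le_sqrt (by nlinarith)
  have s3 : 0 < √(1 - (q * y) ^ 2) := Real.sqrt_pos.2 (by nlinarith)
  have s4 : 0 ≤ √(1 - (p * y) ^ 2) := Real.sqrt_nonneg _
  have h0 := hh_nonneg hp hpq hu
  have hD : 0 < √(1 - (p * y) ^ 2) + √(1 - (q * y) ^ 2) := by linarith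
  have : hh p q u * (√(1 - (p * y) ^ 2) + √(1 - (q * y) ^ 2)) ≤
      hh p q y * (√(1 - (p * y) ^ 2) + √(1 - (q * y) ^ 2)) := by
    rw [e2, ← e1]
    apply mul_le_mul_of_nonneg_left _ h0
    linarith
  exact le_of_mul_le_mul_right this hD

/-- the primitive of `h` -/
noncomputable def FP (p q y : ℝ) : ℝ := gP p y - gP q y

lemma FP_cont (p q : ℝ) : ContinuousOn (FP p q) (Ioi 0) := (gP_cont p).sub (gP_cont q)

lemma FP_low {p q u v : ℝ} (hp : 0 < p) (hpq : p ≤ q) (hu : 0 < u) (huv : u ≤ v)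
    (h : q * v ≤ 1) : hh p q u * (v - u) ≤ FP p q v - FP p q u := by
  have hq : 0 < q := hp.trans_le hpq
  have hd : ∀ y ∈ interior (Icc u v), HasDerivAt (FP p q) (hh p q y) y ∧ hh p q u ≤ hh p q y := by
    intro y hy
    rw [interior_Icc] at hy
    have hy0 : 0 < y := hu.trans hy.1
    have h1 : q * y < 1 := (mul_lt_mul_of_pos_left hy.2 hq).trans_le h
    have h2 : p * y < 1 := (mul_le_mul_of_nonneg_right hpq hy0.le).trans_lt h1
    refine ⟨?_, hh_mono hp hpq hu hy.1.le h1⟩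
    refine ((gP_deriv hp hy0 h2).sub (gP_deriv hq hy0 h1)).congr_deriv ?_
    unfold hh
    rw [sub_div]
  refine Convex.mul_sub_le_image_sub_of_le_deriv (convex_Icc u v)
    ((FP_cont p q).mono fun y hy => hu.trans_le hy.1) (fun y hy => ?_) (fun y hy => ?_) u
    (left_mem_Icc.2 huv) v (right_mem_Icc.2 huv) huv
  · exact (hd y hy).1.differentiableAt.differentiableWithinAt
  · rw [(hd y hy).1.deriv]
    exact (hd y hy).2

lemma gP_high {p u v : ℝ} (hp : 0 < p) (hu : 0 < u) (huv : u ≤ v) (h : p * v ≤ 1) :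
    √(1 - (p * v) ^ 2) / v ^ 2 * (v - u) ≤ gP p v - gP p u := by
  have hd : ∀ y ∈ interior (Icc u v), HasDerivAt (gP p) (√(1 - (p * y) ^ 2) / y ^ 2) y ∧
      √(1 - (p * v) ^ 2) / v ^ 2 ≤ √(1 - (p * y) ^ 2) / y ^ 2 := by
    intro y hy
    rw [interior_Icc] at hy
    have hy0 : 0 < y := hu.trans hy.1
    have h1 : p * y < p * v := mul_lt_mul_of_pos_left hy.2 hp
    have hpy : 0 < p * y := mul_pos hp hy0
    refine ⟨gP_deriv hp hy0 (h1.trans_le h), ?_⟩
    apply div_le_div₀ (Real.sqrt_nonneg _) (Real.sqrt_le_sqrt (by nlinarith)) (by positivity)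
    exact pow_le_pow_left₀ hy0.le hy.2.le 2
  refine Convex.mul_sub_le_image_sub_of_le_deriv (convex_Icc u v)
    ((gP_cont p).mono fun y hy => hu.trans_le hy.1) (fun y hy => ?_) (fun y hy => ?_) u
    (left_mem_Icc.2 huv) v (right_mem_Icc.2 huv) huv
  · exact (hd y hy).1.differentiableAt.differentiableWithinAt
  · rw [(hd y hy).1.deriv]
    exact (hd y hy).2

lemma gP_mono {p u v : ℝ} (hp : 0 < p) (hu : 0 < u) (huv : u ≤ v) : gP p u ≤ gP p v := by
  have key : ∀ a b : ℝ, 0 < a → a ≤ b → p * b ≤ 1 → gP p a ≤ gP p b := by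
    intro a b ha hab hb
    have := gP_high hp ha hab hb
    have h2 : 0 ≤ √(1 - (p * b) ^ 2) / b ^ 2 * (b - a) :=
      mul_nonneg (by positivity) (by linarith)
    linarith
  rcases le_or_gt (p * v) 1 with h | h
  · exact key u v hu huv h
  · rw [gP_big h.le]
    rcases le_or_gt 1 (p * u) with h' | h'
    · rw [gP_big h']
    · have h3 : u ≤ 1 / p := by rw [le_div_iff₀ hp]; linarith
      have h4 : p * (1 / p) = 1 := by field_simp
      have := key u (1 / p) hu h3 h4.le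
      rwa [gP_big h4.ge] at this

lemma FP_high {p q u v : ℝ} (hp : 0 < p) (hpq : p ≤ q) (hu : 0 < u) (huv : u ≤ v)
    (h : 1 ≤ q * u) : hh p q v * (v - u) ≤ FP p q v - FP p q u := by
  have hq : 0 < q := hp.trans_le hpq
  have hqv : 1 ≤ q * v := h.trans (mul_le_mul_of_nonneg_left huv hq.le)
  have e1 : hh p q v = √(1 - (p * v) ^ 2) / v ^ 2 := by
    unfold hh
    have : 1 - (q * v) ^ 2 ≤ 0 := by nlinarith
    rw [Real.sqrt_eq_zero_of_nonpos this, sub_zero]
  unfold FP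
  rw [gP_big h, gP_big hqv, e1]
  rcases le_or_gt (p * v) 1 with h1 | h1
  · have := gP_high hp hu huv h1
    linarith
  · have : 1 - (p * v) ^ 2 ≤ 0 := by nlinarith
    rw [Real.sqrt_eq_zero_of_nonpos this, zero_div, zero_mul]
    have := gP_mono hp hu huv
    linarith

lemma FP_mono {p q u v : ℝ} (hp : 0 < p) (hpq : p ≤ q) (hu : 0 < u) (huv : u ≤ v) :
    FP p q u ≤ FP p q v := by
  have hq : 0 < q := hp.trans_le hpq
  have k1 : ∀ a b : ℝ, 0 < a → a ≤ b → q * b ≤ 1 → FP p q a ≤ FP p q b := by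
    intro a b ha hab hb
    have := FP_low hp hpq ha hab hb
    have h2 : 0 ≤ hh p q a * (b - a) := mul_nonneg (hh_nonneg hp hpq ha) (by linarith)
    linarith
  have k2 : ∀ a b : ℝ, 0 < a → a ≤ b → 1 ≤ q * a → FP p q a ≤ FP p q b := by
    intro a b ha hab hb
    have := FP_high hp hpq ha hab hb
    have h2 : 0 ≤ hh p q b * (b - a) :=
      mul_nonneg (hh_nonneg hp hpq (ha.trans_le hab)) (by linarith)
    linarith
  rcases le_or_gt (q * v) 1 with h | h
  · exact k1 u v hu huv h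
  · rcases le_or_gt 1 (q * u) with h' | h'
    · exact k2 u v hu huv h'
    · have h3 : u ≤ 1 / q := by rw [le_div_iff₀ hq]; linarith
      have h4 : q * (1 / q) = 1 := by field_simp
      have h5 : 1 / q ≤ v := by rw [div_le_iff₀ hq]; linarith
      exact (k1 u (1 / q) hu h3 h4.le).trans (k2 (1 / q) v (by positivity) h5 h4.ge)

lemma FP_le {p q y : ℝ} (hp : 0 < p) (hpq : p ≤ q) (hy : 0 < y) :
    FP p q y ≤ π / 2 * (q - p) := by
  have h1 : y ≤ max y (1 / p) := le_max_left _ _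
  refine (FP_mono hp hpq hy h1).trans (le_of_eq ?_)
  have h2 : 1 ≤ p * max y (1 / p) := by
    have h2 : p * (1 / p) = 1 := by field_simp
    have h3 := mul_le_mul_of_nonneg_left (le_max_right y (1 / p)) hp.le
    linarith
  have h3 : 1 ≤ q * max y (1 / p) :=
    h2.trans (mul_le_mul_of_nonneg_right hpq (hy.le.trans h1))
  unfold FP
  rw [gP_big h2, gP_big h3]
  ring

/-- the auxiliary function -/
noncomputable def phi (x : ℝ) : ℝ := √(1 - x ^ 2) + x * Real.arcsin x

lemma phi_cont : Continuous phi := by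
  unfold phi
  exact (by fun_prop : Continuous fun x : ℝ => √(1 - x ^ 2)).add
    (continuous_id.mul Real.continuous_arcsin)

lemma phi_mono {a b : ℝ} (ha : 0 ≤ a) (hab : a ≤ b) : phi a ≤ phi b := by
  have k1 : MonotoneOn phi (Icc 0 1) := by
    apply monotoneOn_of_deriv_nonneg (convex_Icc 0 1) phi_cont.continuousOn
    · intro x hx
      rw [interior_Icc] at hx
      have h1 : 0 < 1 - x ^ 2 := by nlinarith [hx.1, hx.2]
      have d1 : HasDerivAt (fun x : ℝ => 1 - x ^ 2) (-(2 * x)) x := by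
        simpa using ((hasDerivAt_id x).pow 2).const_sub 1
      have d2 := d1.sqrt h1.ne'
      have d3 := (hasDerivAt_id x).mul
        (Real.hasDerivAt_arcsin (x := x) (by linarith [hx.1]) (by linarith [hx.2]))
      exact (d2.add d3).differentiableAt.differentiableWithinAt
    · intro x hx
      rw [interior_Icc] at hx
      have h1 : 0 < 1 - x ^ 2 := by nlinarith [hx.1, hx.2]
      have d1 : HasDerivAt (fun x : ℝ => 1 - x ^ 2) (-(2 * x)) x := by
        simpa using ((hasDerivAt_id x).pow 2).const_sub 1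
      have d2 := d1.sqrt h1.ne'
      have d3 := (hasDerivAt_id x).mul
        (Real.hasDerivAt_arcsin (x := x) (by linarith [hx.1]) (by linarith [hx.2]))
      have d4 : HasDerivAt phi (Real.arcsin x) x := by
        refine (d2.add d3).congr_deriv ?_
        simp only [id]
        have hs : 0 < √(1 - x ^ 2) := Real.sqrt_pos.2 h1
        field_simp
        ring
      rw [d4.deriv]
      exact Real.arcsin_nonneg.2 hx.1.le
  have k2 : ∀ x : ℝ, 1 ≤ x → phi x = x * (π / 2) := by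
    intro x hx
    unfold phi
    have h1 : 1 - x ^ 2 ≤ 0 := by nlinarith
    rw [Real.sqrt_eq_zero_of_nonpos h1, Real.arcsin_of_one_le hx, zero_add]
  rcases le_or_gt b 1 with h | h
  · exact k1 ⟨ha, hab.trans h⟩ ⟨ha.trans hab, h⟩ hab
  · rcases le_or_gt 1 a with h' | h'
    · rw [k2 a h', k2 b h.le]
      exact mul_le_mul_of_nonneg_right hab (by positivity)
    · have h3 := k1 ⟨ha, h'.le⟩ ⟨zero_le_one, le_refl _⟩ h'.le
      refine h3.trans ?_
      rw [k2 1 le_rfl, k2 b h.le]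
      exact mul_le_mul_of_nonneg_right h.le (by positivity)

lemma FP_nonneg {p q y : ℝ} (hp : 0 < p) (hpq : p ≤ q) (hy : 0 < y) : 0 ≤ FP p q y := by
  have h1 : FP p q y = (phi (q * y) - phi (p * y)) / y := by
    unfold FP gP phi
    field_simp
    ring
  rw [h1]
  apply div_nonneg _ hy.le
  rw [sub_nonneg]
  exact phi_mono (by positivity) (mul_le_mul_of_nonneg_right hpq hy.le)

lemma hh_le {p q y : ℝ} (hy : 1 ≤ y) : hh p q y ≤ min 1 (q ^ 2) := by
  have hy0 : 0 < y := by linarith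
  have h1 : √(1 - (p * y) ^ 2) ≤ 1 := by
    rw [Real.sqrt_le_left (by norm_num)]
    nlinarith [sq_nonneg (p * y)]
  have h2 : 0 ≤ √(1 - (q * y) ^ 2) := Real.sqrt_nonneg _
  have h3 : 1 - (q * y) ^ 2 ≤ √(1 - (q * y) ^ 2) := by
    rcases le_or_gt 0 (1 - (q * y) ^ 2) with h | h
    · apply Real.le_sqrt_of_sq_le
      nlinarith [sq_nonneg (q * y)]
    · exact h.le.trans h2
  unfold hh
  apply le_min
  · rw [div_le_iff₀ (by positivity)]
    nlinarith
  · rw [div_le_iff₀ (by positivity)]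
    nlinarith

/-- the sum over a progression -/
lemma sum_hh {p q : ℝ} (hp : 0 < p) (hpq : p ≤ q) (a : ℕ) (ha : 1 ≤ a) (K : ℕ) :
    (q * ((a + 36 * K : ℕ) : ℝ) ≤ 1 →
      ∑ k ∈ Finset.range K, 36 * hh p q ((a + 36 * k : ℕ) : ℝ) ≤
        FP p q ((a + 36 * K : ℕ) : ℝ) - FP p q (a : ℝ)) ∧
    (1 < q * ((a + 36 * K : ℕ) : ℝ) →
      ∑ k ∈ Finset.range (K + 1), 36 * hh p q ((a + 36 * k : ℕ) : ℝ) ≤
        FP p q ((a + 36 * K : ℕ) : ℝ) - FP p q (a : ℝ) + 72 * min 1 (q ^ 2)) := by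
  have hq : 0 < q := hp.trans_le hpq
  have hq2 : 0 < q ^ 2 := by positivity
  have hM : 0 ≤ min 1 (q ^ 2) := le_min zero_le_one hq2.le
  have h1 : ∀ k : ℕ, (1 : ℝ) ≤ ((a + 36 * k : ℕ) : ℝ) := fun k => by
    exact_mod_cast (by omega : 1 ≤ a + 36 * k)
  have h0 : ∀ k : ℕ, (0 : ℝ) < ((a + 36 * k : ℕ) : ℝ) := fun k => by linarith [h1 k]
  have hs : ∀ k : ℕ, ((a + 36 * (k + 1) : ℕ) : ℝ) - ((a + 36 * k : ℕ) : ℝ) = 36 := fun k => by
    push_cast
    ring
  induction K with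
  | zero =>
    constructor
    · intro _
      simp
    · intro _
      rw [Finset.sum_range_one]
      have h2 := hh_le (p := p) (q := q) (h1 0)
      simp only [Nat.mul_zero, Nat.add_zero] at h2 ⊢
      linarith
  | succ K ih =>
    obtain ⟨i1, i2⟩ := ih
    have hle : ((a + 36 * K : ℕ) : ℝ) ≤ ((a + 36 * (K + 1) : ℕ) : ℝ) := by linarith [hs K]
    have hqle := mul_le_mul_of_nonneg_left hle hq.le
    have hmono := FP_mono hp hpq (h0 K) hle
    constructor
    · intro h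
      have h3 := i1 (hqle.trans h)
      have h4 := FP_low hp hpq (h0 K) hle h
      rw [hs K] at h4
      rw [Finset.sum_range_succ]
      linarith
    · intro h
      rw [Finset.sum_range_succ]
      rcases le_or_gt (q * ((a + 36 * K : ℕ) : ℝ)) 1 with h5 | h5
      · have h3 := i1 h5
        have h6 := hh_le (p := p) (q := q) (h1 K)
        have h7 := hh_le (p := p) (q := q) (h1 (K + 1))
        rw [Finset.sum_range_succ]
        linarith
      · have h3 := i2 h5
        have h4 := FP_high hp hpq (h0 K) hle h5.le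
        rw [hs K] at h4
        linarith

lemma sum_hh' {p q : ℝ} (hp : 0 < p) (hpq : p ≤ q) (a : ℕ) (ha : 1 ≤ a) (K : ℕ) :
    ∑ k ∈ Finset.range K, hh p q ((a + 36 * k : ℕ) : ℝ) ≤
      π / 72 * (q - p) + 2 * min 1 (q ^ 2) := by
  have hq : 0 < q := hp.trans_le hpq
  have hq2 : 0 < q ^ 2 := by positivity
  have hM : 0 ≤ min 1 (q ^ 2) := le_min zero_le_one hq2.le
  have h0 : ∀ k : ℕ, (0 : ℝ) < ((a + 36 * k : ℕ) : ℝ) := fun k => by
    exact_mod_cast (by omega : 0 < a + 36 * k)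
  have ha0 : (0 : ℝ) < a := by exact_mod_cast ha
  obtain ⟨i1, i2⟩ := sum_hh hp hpq a ha K
  have h1 := FP_le hp hpq (h0 K)
  have h2 := FP_nonneg hp hpq ha0
  have h3 : ∑ k ∈ Finset.range K, 36 * hh p q ((a + 36 * k : ℕ) : ℝ) ≤
      π / 2 * (q - p) + 72 * min 1 (q ^ 2) := by
    rcases le_or_gt (q * ((a + 36 * K : ℕ) : ℝ)) 1 with h | h
    · have := i1 h
      linarith
    · have := i2 h
      rw [Finset.sum_range_succ] at this
      have h4 := hh_nonneg hp hpq (h0 K)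
      linarith
  rw [← Finset.mul_sum] at h3
  linarith

lemma Hh_scale {A : ℝ} (hA : 0 < A) (P Q y : ℝ) :
    Hh A P Q y = √A * hh (P / √A) (Q / √A) y := by
  have hs : 0 < √A := Real.sqrt_pos.2 hA
  have hs2 : √A ^ 2 = A := Real.sq_sqrt hA.le
  have key : ∀ R : ℝ, √(A - R ^ 2 * y ^ 2) = √A * √(1 - (R / √A * y) ^ 2) := by
    intro R
    rw [← Real.sqrt_mul hA.le]
    congr 1
    have : A * (1 - (R / √A * y) ^ 2) = A - R ^ 2 * y ^ 2 * (A / √A ^ 2) := by
      rw [mul_pow, div_pow]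
      ring
    rw [this, hs2, div_self hA.ne', mul_one]
  unfold Hh hh
  rw [key P, key Q]
  ring

/-- **S_YS** -/
theorem s_YS : S_YS := by
  intro A P Q hA hP hPQ a K ha
  have hs : 0 < √A := Real.sqrt_pos.2 hA
  have hs2 : √A ^ 2 = A := Real.sq_sqrt hA.le
  have h := sum_hh' (p := P / √A) (q := Q / √A) (by positivity)
    (div_le_div_of_nonneg_right hPQ hs.le) a ha K
  rw [Finset.sum_congr rfl fun k _ => Hh_scale hA P Q _, ← Finset.mul_sum]
  have h2 := mul_le_mul_of_nonneg_left h hs.le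
  refine h2.trans (le_of_eq ?_)
  have e1 : √A * (π / 72 * (Q / √A - P / √A)) = π / 72 * (Q - P) := by
    field_simp
  have e2 : √A * min 1 ((Q / √A) ^ 2) = min (√A) (Q ^ 2 / √A) := by
    rw [mul_min_of_nonneg _ _ hs.le, mul_one]
    congr 1
    field_simp
  calc √A * (π / 72 * (Q / √A - P / √A) + 2 * min 1 ((Q / √A) ^ 2)) =
        √A * (π / 72 * (Q / √A - P / √A)) + 2 * (√A * min 1 ((Q / √A) ^ 2)) := by ring
    _ = _ := by rw [e1, e2]

end Pool.Agent.L7h53.SGP
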